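import Pool.Agent.Y760.SR.Nv
import Pool.Agent.Y777.CL.S
import Pool.Agent.Y760.ST.Fin

/-!
# Sharp measures for multiple polylogarithms at sixth roots of unity (helper760)
-/

set_option autoImplicit false

namespace Pool.Agent.Y760.SR

open Finset Filter Topology Pool.Agent.TH507.ZS Pool.Agent.Y777.CL Pool.Agent.Y760.RT
open Pool.Agent.Y760.ST

lemma re_alg {z : ℂ} (hz : IsAlgebraic ℚ z) : IsAlgebraic ℚ z.re := by
  have h1 : IsAlgebraic ℚ ((starRingEnd ℂ) z) := by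
    obtain ⟨p, hp, hpz⟩ := hz
    refine ⟨p, hp, ?_⟩
    have h2 := congrArg (starRingEnd ℂ) hpz
    rw [map_zero, Polynomial.aeval_def, Polynomial.hom_eval₂] at h2
    rw [Polynomial.aeval_def, ← h2]
    congr 1
    exact Subsingleton.elim _ _
  have h2 : IsAlgebraic ℚ ((z.re : ℝ) : ℂ) := by
    have h3 : ((z.re : ℝ) : ℂ) = (z + (starRingEnd ℂ) z) * ((2 : ℚ)⁻¹ : ℚ) := by
      rw [Complex.add_conj]
      push_cast
      ring
    rw [h3]
    exact (hz.add h1).mul (isAlgebraic_algebraMap (R := ℚ) (A := ℂ) ((2 : ℚ)⁻¹))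
  exact (isAlgebraic_algebraMap_iff (algebraMap ℝ ℂ).injective).1 h2

lemma om_alg : IsAlgebraic ℚ om := by
  refine IsAlgebraic.of_pow (n := 6) (by norm_num) ?_
  have h1 : om ^ 2 = om - 1 := by rw [sq]; exact om_sq
  have h2 : om ^ 6 = 1 := by
    have h3 : om ^ 3 = -1 := by
      rw [pow_succ, h1, sub_mul, one_mul, om_sq]
      ring
    rw [show (6 : ℕ) = 3 * 2 from rfl, pow_mul, h3]
    norm_num
  rw [h2]
  exact isAlgebraic_one

lemma RR.alg {z : ℂ} (hz : RR z) : IsAlgebraic ℚ z := by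
  obtain ⟨x, y, rfl⟩ := hz
  exact (isAlgebraic_algebraMap (R := ℚ) (A := ℂ) x).add
    ((isAlgebraic_algebraMap (R := ℚ) (A := ℂ) y).mul om_alg)

lemma norm_om : ‖om‖ = 1 := by
  refine norm_six ?_
  have h1 : om ^ 2 = om - 1 := by rw [sq]; exact om_sq
  have h3 : om ^ 3 = -1 := by
    rw [pow_succ, h1, sub_mul, one_mul, om_sq]
    ring
  rw [show (6 : ℕ) = 3 * 2 from rfl, pow_mul, h3]
  norm_num

/-- the tail condition, for the multiples by `1` and `ω` -/
lemma tail_u {u : ℂ} (hu : RR u) (hu1 : ‖u‖ = 1) (w : List Lt) (hw : GD w) (hHP : ∀ x ∈ w, 1 ≤ x.1.1) :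
    Tail (fun K => (u * TC w (K + 1) K).re) (fun n => (u * Li (ag n w)).re) := by
  cases w with
  | nil =>
    intro M
    refine ⟨|u.re|, Eventually.of_forall fun n => ?_⟩
    have h1 : ∀ K : ℕ, (u * TC [] (K + 1) K).re = if K = 1 then u.re else 0 := by
      intro K
      rw [TC_nil]
      split_ifs <;> simp
    simp only [h1]
    have h2 : (u * Li (ag n [])).re = u.re := by
      rw [ag_nil, Li, mul_one]
    rw [h2]
    rcases Nat.eq_zero_or_pos M with rfl | hM
    · simp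
    · rw [sum_eq_single 1]
      · rw [if_pos rfl, Nat.cast_one, one_pow, div_one, sub_self, abs_zero]
        positivity
      · intro j _ hj
        rw [if_neg hj, zero_div]
      · intro h
        exact absurd (mem_Icc.2 ⟨le_rfl, hM⟩) h
  | cons x l =>
    have hx : 1 ≤ x.1.1 := hHP x List.mem_cons_self
    have hq : ∀ K : ℕ, ∃ q : ℚ, (u * TC (x :: l) (K + 1) K).re = q := fun K =>
      (hu.mul (TC_RR (x :: l) hw (K + 1) K)).re
    choose g hg using hq
    have hlen : (pt (x :: l)).length = l.length + 1 := by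
      rw [pt, List.length_map, List.length_cons]
    set A : ℕ := 2 ^ (l.length + 1) + (l.length + 1) with hA
    have hA1 : 2 ^ (l.length + 1) ≤ A := Nat.le_add_right _ _
    have hA2 : l.length + 1 ≤ A := Nat.le_add_left _ _
    have hbd : ∀ k, 1 ≤ k → |(g k : ℝ)| ≤ A * (k : ℝ) ^ A := by
      intro k hk
      rw [← hg k]
      refine (Complex.abs_re_le_norm _).trans ?_
      rw [norm_mul, hu1, one_mul]
      refine (TC_norm _ hw _ _).trans ?_
      have h1 := Pool.Agent.TH507.WG.cf_bd (pt (x :: l)) (A := A) (by rw [hlen]; exact hA1)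
        (by rw [hlen]; exact hA2) k hk
      exact (le_abs_self _).trans h1
    simp only [hg]
    refine tail_congr (tail_dser hbd) (n1 := A + 2) fun n hn => ?_
    obtain ⟨h1, h2⟩ := li_eq x l hx hw hA1 hA2 hn
    have h3 := Complex.hasSum_re (h1.hasSum.mul_left u)
    rw [h2] at h3
    have h4 : (fun K : ℕ => (u * (TC (x :: l) (K + 1) K / (K : ℂ) ^ n)).re) =
        fun K : ℕ => (g K : ℝ) / (K : ℝ) ^ n := by
      funext K
      rw [← hg, ← mul_div_assoc, ← Complex.ofReal_natCast, ← Complex.ofReal_pow,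
        Complex.div_ofReal_re]
    rw [h4] at h3
    have h5 := (hasSum_nat_add_iff' 1).2 h3
    rw [sum_range_one] at h5
    have h6 : (g 0 : ℝ) / ((0 : ℕ) : ℝ) ^ n = 0 := by
      rw [Nat.cast_zero, zero_pow (by omega), div_zero]
    rw [h6, sub_zero] at h5
    rw [dser]
    exact h5.tsum_eq.symm

/-- the tail condition for complex multiples -/
lemma tail_th (θ : ℂ) (w : List Lt) (hw : GD w) (hHP : ∀ x ∈ w, 1 ≤ x.1.1) :
    Tail (fun K => (θ * TC w (K + 1) K).re) (fun n => (θ * Li (ag n w)).re) := by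
  have h3 : Real.sqrt 3 ≠ 0 := by positivity
  have hz : ∀ z : ℂ, (θ * z).re = (θ.re - θ.im / Real.sqrt 3) * ((1 : ℂ) * z).re +
      (2 * θ.im / Real.sqrt 3) * (om * z).re := by
    intro z
    simp only [om, Complex.mul_re, Complex.one_re, Complex.one_im]
    field_simp
    ring
  have h1 := (tail_u RR.one norm_one w hw hHP).mul (θ.re - θ.im / Real.sqrt 3)
  have h2 := (tail_u RR.om norm_om w hw hHP).mul (2 * θ.im / Real.sqrt 3)
  have h4 := tail_add h1 h2
  simp only [← hz] at h4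
  exact h4

/-- letters with natural numbers -/
noncomputable def lw (w : List ((ℕ+ × ℕ) × ℂ)) : List Lt :=
  w.map fun x => (((x.1.1 : ℕ), x.1.2), x.2)

lemma pt_lw (w : List ((ℕ+ × ℕ) × ℂ)) : pt (lw w) = nn (w.map Prod.fst) := by
  rw [pt, lw, nn, List.map_map, List.map_map]
  rfl

lemma GD_lw {w : List ((ℕ+ × ℕ) × ℂ)} (hw : ∀ x ∈ w, x.2 ^ 6 = 1) : GD (lw w) := by
  intro y hy
  obtain ⟨x, hx, rfl⟩ := List.mem_map.1 hy
  exact ⟨hw x hx, fun h => absurd h x.1.1.ne_zero⟩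

lemma HP_lw (w : List ((ℕ+ × ℕ) × ℂ)) : ∀ y ∈ lw w, 1 ≤ y.1.1 := by
  intro y hy
  obtain ⟨x, hx, rfl⟩ := List.mem_map.1 hy
  exact x.1.1.one_le

lemma TC_P6 (w : List ((ℕ+ × ℕ) × ℂ)) (hw : ∀ x ∈ w, x.2 ^ 6 = 1) {K : ℕ} (hK : 1 ≤ K)
    (h6 : P6 K) : TC (lw w) (K + 1) K =
      pz (lw w) * ((Pool.Agent.TH507.WD.cf 1 (w.map Prod.fst) K : ℚ) : ℂ) := by
  rw [TC_at (lw w) (GD_lw hw) _ _ (by omega) h6, pt_lw, T_nn]
  rfl

/-- **sharp measures for multiple polylogarithms at sixth roots of unity** -/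
theorem main {ι : Type} [Fintype ι] (W : ι → List ((ℕ+ × ℕ) × ℂ)) (θ : ι → ℂ)
    (hθ : ∀ i, IsAlgebraic ℚ (θ i)) (hW : ∀ i, ∀ x ∈ W i, x.2 ^ 6 = 1) (i0 : ι)
    (h0 : (W i0).length ≤ 1)
    (hind : ∀ b : ι → ℚ, (∀ v : List (ℕ+ × ℕ), ∑ i, (if (W i).map Prod.fst = v then
      (b i : ℝ) * (θ i * pz (lw (W i))).re else 0) = 0) → b = 0) :
    ∃ D : ℝ, 1 < D ∧ ∀ C B : ℝ, 1 < B → ∃ n0 : ℕ, ∀ n : ℕ, n0 ≤ n → ∀ H : ℝ, D ^ n ≤ H →
      H ≤ C ^ n → ∀ q : ι → ℤ, q ≠ 0 → (∀ i, |(q i : ℝ)| ≤ H) →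
        1 / (H ^ (Fintype.card ι - 1) * B ^ n) <
          |∑ i, (q i : ℝ) * (θ i * Li (ag n (lw (W i)))).re| := by
  classical
  set Λ : Finset (List (ℕ+ × ℕ)) := univ.image fun i => (W i).map Prod.fst with hΛ
  obtain ⟨T, hT0, hTT⟩ := nv6R Λ ((Fintype.card ι : ℝ) ^ 2)
  set c : ι → ℕ → ℝ := fun i K => (θ i * TC (lw (W i)) (K + 1) K).re with hc
  have hne : ∀ i, (θ i * pz (lw (W i))).re ≠ 0 := by
    intro i hi
    have h1 := hind (Pi.single i 1) (by
      intro v
      refine sum_eq_zero fun j _ => ?_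
      by_cases hj : j = i
      · subst hj
        rw [hi, mul_zero, ite_self]
      · rw [Pi.single_eq_of_ne hj, Rat.cast_zero, zero_mul, ite_self])
    have h2 := congrFun h1 i
    rw [Pi.single_eq_same, Pi.zero_apply] at h2
    exact one_ne_zero h2
  have hc6 : ∀ i K, 1 ≤ K → P6 K → c i K = (θ i * pz (lw (W i))).re *
      (Pool.Agent.TH507.WD.cf 1 ((W i).map Prod.fst) K : ℝ) := by
    intro i K hK h6
    rw [hc]
    simp only
    rw [TC_P6 (W i) (hW i) hK h6, ← mul_assoc, ← Complex.ofReal_ratCast, Complex.re_mul_ofReal]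
  refine ⟨Real.exp T, Real.one_lt_exp_iff.2 hT0, fun C B hB => ?_⟩
  obtain ⟨n0, hn0⟩ := mainI i0 c (fun i K => re_alg ((hθ i).mul (RR.alg (TC_RR _ (GD_lw (hW i)) _ _))))
    (fun i n => (θ i * Li (ag n (lw (W i)))).re)
    (fun i => tail_th (θ i) _ (GD_lw (hW i)) (HP_lw (W i))) (by
      rw [hc6 i0 1 le_rfl fun p hp hd => absurd (Nat.dvd_one.1 hd) hp.ne_one]
      refine mul_ne_zero (hne i0) ?_
      have h1 : Pool.Agent.TH507.WD.cf 1 ((W i0).map Prod.fst) 1 = 1 := by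
        rcases hw0 : W i0 with _ | ⟨x, l⟩
        · rw [List.map_nil, Pool.Agent.TH507.WD.cf, Pool.Agent.TH507.WD.T_nil, if_pos rfl]
        · rw [hw0, List.length_cons] at h0
          have hl : l = [] := List.length_eq_zero_iff.1 (by omega)
          subst hl
          rw [List.map_cons, List.map_nil, Pool.Agent.TH507.WD.cf,
            Pool.Agent.TH507.WD.T_cons]
          rw [show Ico 1 (1 + 1) = {1} from rfl, sum_singleton, one_pow, if_pos (dvd_refl 1),
            Pool.Agent.TH507.WD.T_nil, Nat.div_self one_pos, if_pos rfl, Nat.cast_one, one_pow,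
            div_one]
      rw [h1, Rat.cast_one]
      exact one_ne_zero) T hT0.le (by
    intro s hs h hh hlog b hb
    set x : List (ℕ+ × ℕ) → ℝ := fun v => ∑ i, (if (W i).map Prod.fst = v then
      (b i : ℝ) * (θ i * pz (lw (W i))).re else 0) with hx
    obtain ⟨v, hv⟩ : ∃ v, x v ≠ 0 := by
      by_contra hcon
      push Not at hcon
      exact hb (hind b hcon)
    obtain ⟨K, hK1, hKs, hco, hK6, hne2⟩ := hTT s hs h hh hlog x ⟨v, by
      by_contra hcon
      apply hv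
      refine sum_eq_zero fun i _ => ?_
      rw [if_neg]
      intro h1
      exact hcon (mem_image.2 ⟨i, mem_univ _, h1⟩), hv⟩
    refine ⟨K, hK1, hKs, hco, fun h1 => hne2 ?_⟩
    rw [← h1, hx]
    simp only [sum_mul]
    rw [sum_comm]
    refine sum_congr rfl fun i _ => ?_
    rw [sum_eq_single ((W i).map Prod.fst)]
    · rw [if_pos rfl, hc6 i K hK1 hK6, mul_assoc]
    · intro v' _ hv'
      rw [if_neg (Ne.symm hv'), zero_mul]
    · intro h2
      exact absurd (mem_image.2 ⟨i, mem_univ _, rfl⟩) h2) C B hB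
  refine ⟨n0, fun n hn H hH1 hH2 q hq hqH => hn0 n hn H ?_ hH2 q hq hqH⟩
  rw [mul_comm, Real.exp_nat_mul]
  exact hH1

end Pool.Agent.Y760.SR
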