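import Pool.Agent.Y760.SR.Pr
import Pool.Agent.Y93.ST.Nvw
import Pool.Agent.Y777.CL.R

/-!
# The word functions at products of small primes of the class of one modulo six (helper760)
-/

set_option autoImplicit false

namespace Pool.Agent.Y760.SR

open Finset Pool.Agent.TH507.WD Pool.Agent.Y93.ST
open Pool.Agent.Y777.CL (P6)

/-- **quantitative independence of the word functions**, prime factors `1` modulo `6` -/
theorem nv6 (Λ : Finset (List (ℕ+ × ℕ))) (c0 : ℝ) : ∃ T : ℝ, 0 < T ∧ ∀ s : ℝ, T ≤ s →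
    ∀ h : ℕ, 1 ≤ h → Real.log h ≤ c0 * s →
    ∀ x : List (ℕ+ × ℕ) → ℚ, (∃ w ∈ Λ, x w ≠ 0) →
      ∃ K : ℕ, 1 ≤ K ∧ Real.log K ≤ s ∧ Nat.Coprime h K ∧ P6 K ∧
        ∑ w ∈ Λ, x w * Pool.Agent.TH507.WD.cf 1 w K ≠ 0 := by
  classical
  obtain ⟨M, hM⟩ : ∃ M : ℕ, ∀ w ∈ Λ, ∀ z ∈ w, z.2 ≤ M := by
    refine ⟨Λ.sup fun w => (w.map Prod.snd).sum, fun w hw z hz => ?_⟩
    refine (List.single_le_sum (l := w.map Prod.snd) (fun _ _ => Nat.zero_le _) z.2
      (List.mem_map_of_mem hz)).trans ?_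
    exact le_sup (f := fun w : List (ℕ+ × ℕ) => (w.map Prod.snd).sum) hw
  set R : ℕ := Λ.sup List.length with hR
  set W : ℕ := Λ.sup asum with hW
  obtain ⟨T, hT, hTs⟩ := primes6 W ((M + 1) * R) c0
  refine ⟨T, hT, ?_⟩
  intro s hs h hh hlog x hx
  have hs0 : 0 < s := lt_of_lt_of_le hT hs
  obtain ⟨P, hPc, hPq, Bd, hBd, hBd1, hBds⟩ := hTs s hs h hh hlog
  have hPp : ∀ p ∈ P, p.Prime := fun p hp => (hPq p hp).1
  by_contra hcon
  push Not at hcon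
  have h0 : ∀ w ∈ Λ.erase [], x w = 0 := by
    refine cf1_ind' M R W (Λ.erase []) (notMem_erase _ _) x P hPp hPc.ge
      (fun w hw => hM w (mem_of_mem_erase hw))
      (fun w hw => le_sup (f := List.length) (mem_of_mem_erase hw))
      (fun w hw => le_sup (f := asum) (mem_of_mem_erase hw)) ?_
    intro Q hQ0 hQP hQp hQW
    have h1 : ∀ q ∈ Q, q.1.Prime := fun q hq => hPp _ (hQP q hq)
    have hK0 := KQ_ne h1
    have hK1 : KQ Q ≠ 1 := by
      rcases Q with _ | ⟨r, Q⟩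
      · exact absurd rfl hQ0
      · have hr := (h1 r List.mem_cons_self).two_le
        have hqK : r.1 ≤ KQ (r :: Q) := by
          refine Nat.le_of_dvd (Nat.pos_of_ne_zero hK0) ?_
          rw [KQ_cons]
          exact dvd_mul_of_dvd_left (dvd_pow_self _ r.2.ne_zero) _
        omega
    have hKs : Real.log (KQ Q) ≤ s := by
      have h2 : KQ Q ≤ Bd ^ W :=
        (KQ_le (B := Bd) fun q hq => hBd _ (hQP q hq)).trans (Nat.pow_le_pow_right hBd1 hQW)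
      have h3 : Real.log (KQ Q) ≤ Real.log ((Bd ^ W : ℕ) : ℝ) :=
        Real.log_le_log (by exact_mod_cast Nat.pos_of_ne_zero hK0) (by exact_mod_cast h2)
      push_cast at h3
      rw [Real.log_pow] at h3
      exact h3.trans hBds
    have hcop : Nat.Coprime h (KQ Q) := by
      rw [Nat.coprime_iff_gcd_eq_one]
      by_contra hg
      obtain ⟨r, hr, hrd⟩ := Nat.exists_prime_and_dvd hg
      obtain ⟨q', hq', hq'r⟩ := KQ_prime h1 hr (hrd.trans (Nat.gcd_dvd_right _ _))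
      apply (hPq _ (hQP q' hq')).2.2
      rw [hq'r]
      exact hrd.trans (Nat.gcd_dvd_left _ _)
    have hP6 : P6 (KQ Q) := by
      intro r hr hrd
      obtain ⟨q', hq', hq'r⟩ := KQ_prime h1 hr hrd
      rw [← hq'r]
      exact (hPq _ (hQP q' hq')).2.1
    have h2 := hcon (KQ Q) (Nat.one_le_iff_ne_zero.2 hK0) hKs hcop hP6
    rw [← h2]
    refine sum_subset (erase_subset _ _) fun w hw hw' => ?_
    have h3 : w = [] := by
      by_contra h4
      exact hw' (mem_erase.2 ⟨h4, hw⟩)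
    rw [h3, Pool.Agent.TH507.WD.cf, T_nil, if_neg hK1, mul_zero]
  obtain ⟨w, hw, hxw⟩ := hx
  have hwn : w = [] := by
    by_contra h1
    exact hxw (h0 w (mem_erase.2 ⟨h1, hw⟩))
  subst hwn
  have h1 := hcon 1 le_rfl (by rw [Nat.cast_one, Real.log_one]; exact hs0.le)
    (Nat.coprime_one_right h) (fun p hp hd => absurd (Nat.dvd_one.1 hd) hp.ne_one)
  rw [sum_eq_single []] at h1
  · rw [Pool.Agent.TH507.WD.cf, T_nil, if_pos rfl, mul_one] at h1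
    exact hxw h1
  · intro v hv hne
    rw [h0 v (mem_erase.2 ⟨hne, hv⟩), zero_mul]
  · intro h2
    exact absurd hw h2

/-- real coefficients -/
theorem nv6R (Λ : Finset (List (ℕ+ × ℕ))) (c0 : ℝ) : ∃ T : ℝ, 0 < T ∧ ∀ s : ℝ, T ≤ s →
    ∀ h : ℕ, 1 ≤ h → Real.log h ≤ c0 * s →
    ∀ x : List (ℕ+ × ℕ) → ℝ, (∃ w ∈ Λ, x w ≠ 0) →
      ∃ K : ℕ, 1 ≤ K ∧ Real.log K ≤ s ∧ Nat.Coprime h K ∧ P6 K ∧
        ∑ w ∈ Λ, x w * (Pool.Agent.TH507.WD.cf 1 w K : ℝ) ≠ 0 := by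
  obtain ⟨T, hT, hTs⟩ := nv6 Λ c0
  refine ⟨T, hT, fun s hs h hh hlog x hx => ?_⟩
  obtain ⟨w, hw, hxw⟩ := hx
  obtain ⟨φ, hφ⟩ : ∃ φ : ℝ →ₗ[ℚ] ℚ, φ (x w) ≠ 0 := by
    by_contra hcon
    push Not at hcon
    exact hxw ((Module.forall_dual_apply_eq_zero_iff ℚ (x w)).1 hcon)
  obtain ⟨K, h1, h2, h3, h4, h5⟩ := hTs s hs h hh hlog (fun w => φ (x w)) ⟨w, hw, hφ⟩
  refine ⟨K, h1, h2, h3, h4, fun h6 => h5 ?_⟩
  have h7 := congrArg φ h6
  rw [map_sum, map_zero] at h7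
  rw [← h7]
  refine sum_congr rfl fun v _ => ?_
  rw [mul_comm (x v), ← Rat.smul_def, map_smul, smul_eq_mul, mul_comm]

/-- patterns with natural numbers -/
def nn (v : List (ℕ+ × ℕ)) : List (ℕ × ℕ) := v.map fun x => ((x.1 : ℕ), x.2)

lemma nn_nil : nn [] = [] := rfl
lemma nn_cons (x : ℕ+ × ℕ) (v : List (ℕ+ × ℕ)) : nn (x :: v) = ((x.1 : ℕ), x.2) :: nn v := rfl

lemma T_nn (v : List (ℕ+ × ℕ)) : ∀ m K, Pool.Agent.TH507.WG.T 1 (nn v) m K =
    Pool.Agent.TH507.WD.T 1 v m K := by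
  induction v with
  | nil =>
    intro m K
    rw [nn_nil, Pool.Agent.TH507.WG.T_nil, Pool.Agent.TH507.WD.T_nil]
  | cons x v ih =>
    intro m K
    rw [nn_cons, Pool.Agent.TH507.WG.T_cons, Pool.Agent.TH507.WD.T_cons,
      Pool.Agent.TH507.WG.lo_one]
    refine sum_congr rfl fun j _ => ?_
    simp only [ih]

end Pool.Agent.Y760.SR
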