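import Mathlib

/-!
# Small primes in the class of one modulo six that do not divide a given number (helper760)
-/

set_option autoImplicit false

namespace Pool.Agent.Y760.SR

open Finset

lemma card_fact_le (s : Finset ℕ) : (∀ x ∈ s, 1 ≤ x) → s.card.factorial ≤ ∏ x ∈ s, x := by
  classical
  induction s using Finset.induction_on_max with
  | empty => intro _; simp
  | insert a s ha ih =>
    intro h
    have hna : a ∉ s := fun h1 => lt_irrefl a (ha a h1)
    rw [card_insert_of_notMem hna, prod_insert hna, Nat.factorial_succ]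
    refine Nat.mul_le_mul ?_ (ih fun x hx => h x (mem_insert_of_mem hx))
    have h1 : s ⊆ Ico 1 a := fun x hx => mem_Ico.2 ⟨h x (mem_insert_of_mem hx), ha x hx⟩
    have h2 := card_le_card h1
    rw [Nat.card_Ico] at h2
    have h3 := h a (mem_insert_self _ _)
    omega

/-- a prime factor outside a given finite set -/
lemma core (S : Finset ℕ) (hS : ∀ p ∈ S, p.Prime) :
    ∃ n : ℕ, 1 ≤ n ∧ n ≤ 2 * 16 ^ S.card ∧ ∃ p : ℕ, p.Prime ∧ p ∣ n ^ 2 + n + 1 ∧ p ∉ S := by
  classical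
  by_contra hcon
  push Not at hcon
  set t := S.card with ht
  set g : ℕ → ℕ := fun n => n ^ 2 + n + 1 with hg
  have hg0 : ∀ n, g n ≠ 0 := fun n => by rw [hg]; positivity
  have hin : ∀ n, 1 ≤ n → n ≤ 2 * 16 ^ t → g n =
      (∏ p ∈ S, p ^ ((g n).factorization p / 4)) ^ 4 * ∏ p ∈ S, p ^ ((g n).factorization p % 4) := by
    intro n h1 h2
    have h3 : (g n).factorization.prod (fun p k => p ^ k) = g n :=
      Nat.prod_factorization_pow_eq_self (hg0 n)
    rw [Finsupp.prod_of_support_subset (s := S)] at h3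
    · conv_lhs => rw [← h3]
      rw [← prod_pow, ← prod_mul_distrib]
      refine prod_congr rfl fun p _ => ?_
      rw [← pow_mul, ← pow_add]
      congr 1
      omega
    · intro p hp
      rw [Nat.support_factorization, Nat.mem_primeFactors] at hp
      exact hcon n h1 h2 p hp.1 hp.2.1
    · intro p _
      exact pow_zero p
  set F : ℕ → (S → Fin 4) × ℕ := fun n =>
    (fun p => ⟨(g n).factorization p % 4, Nat.mod_lt _ (by norm_num)⟩,
      ∏ p ∈ S, p ^ ((g n).factorization p / 4)) with hF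
  have hmaps : ∀ n ∈ Icc 1 (2 * 16 ^ t), F n ∈ (univ : Finset (S → Fin 4)) ×ˢ Ico 1 (2 * 4 ^ t) := by
    intro n hn
    rw [mem_Icc] at hn
    rw [mem_product]
    refine ⟨mem_univ _, ?_⟩
    rw [hF]
    simp only
    rw [mem_Ico]
    have hk1 : 1 ≤ ∏ p ∈ S, p ^ ((g n).factorization p / 4) :=
      Nat.one_le_iff_ne_zero.2 (prod_ne_zero_iff.2 fun p hp => pow_ne_zero _ (hS p hp).ne_zero)
    refine ⟨hk1, ?_⟩
    have h1 := hin n hn.1 hn.2
    set k := ∏ p ∈ S, p ^ ((g n).factorization p / 4) with hk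
    have h2 : 1 ≤ ∏ p ∈ S, p ^ ((g n).factorization p % 4) :=
      Nat.one_le_iff_ne_zero.2 (prod_ne_zero_iff.2 fun p hp => pow_ne_zero _ (hS p hp).ne_zero)
    have h3 : k ^ 4 ≤ g n := by
      rw [h1]
      exact Nat.le_mul_of_pos_right _ h2
    have h4 : g n < (2 * 4 ^ t) ^ 4 := by
      have h5 : g n ≤ 3 * n ^ 2 := by
        rw [hg]
        simp only
        nlinarith [hn.1]
      have h6 : n ^ 2 ≤ (2 * 16 ^ t) ^ 2 := Nat.pow_le_pow_left hn.2 2
      have h7 : (2 * 4 ^ t) ^ 4 = 4 * (2 * 16 ^ t) ^ 2 := by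
        have h8 : (16 : ℕ) ^ t = 4 ^ t * 4 ^ t := by
          rw [← mul_pow]
          norm_num
        rw [h8]
        ring
      have h9 : 0 < (2 * 16 ^ t) ^ 2 := by positivity
      rw [h7]
      omega
    by_contra hlt
    rw [not_lt] at hlt
    have h5 := Nat.pow_le_pow_left hlt 4
    omega
  have hinj : ∀ n ∈ Icc 1 (2 * 16 ^ t), ∀ n' ∈ Icc 1 (2 * 16 ^ t), F n = F n' → n = n' := by
    intro n hn n' hn' hFF
    rw [mem_Icc] at hn hn'
    rw [hF] at hFF
    simp only [Prod.mk.injEq] at hFF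
    have h1 := hin n hn.1 hn.2
    have h2 := hin n' hn'.1 hn'.2
    have h3 : ∏ p ∈ S, p ^ ((g n).factorization p % 4) =
        ∏ p ∈ S, p ^ ((g n').factorization p % 4) := by
      refine prod_congr rfl fun p hp => ?_
      have h4 := congrFun hFF.1 ⟨p, hp⟩
      simp only [Fin.mk.injEq] at h4
      rw [h4]
    rw [hFF.2, h3, ← h2] at h1
    rw [hg] at h1
    simp only at h1
    by_contra hne
    rcases Nat.lt_or_gt_of_ne hne with h5 | h5 <;> nlinarith
  have hcard := card_le_card_of_injOn F hmaps (fun n hn n' hn' h => hinj n hn n' hn' h)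
  rw [Nat.card_Icc, card_product, card_univ, Fintype.card_fun, Fintype.card_fin, Nat.card_Ico,
    Fintype.card_coe, ← ht] at hcard
  have h1 : (4 : ℕ) ^ t * (2 * 4 ^ t - 1) < 4 ^ t * (2 * 4 ^ t) := by
    refine Nat.mul_lt_mul_of_pos_left ?_ (by positivity)
    have : 0 < (4 : ℕ) ^ t := by positivity
    omega
  have h2 : (16 : ℕ) ^ t = 4 ^ t * 4 ^ t := by
    rw [← mul_pow]
    norm_num
  have h3 : (4 : ℕ) ^ t * (2 * 4 ^ t) = 2 * 16 ^ t := by
    rw [h2]
    ring
  omega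

lemma newp (S : Finset ℕ) (hS : ∀ p ∈ S, p.Prime) (h3 : 3 ∈ S) :
    ∃ p : ℕ, p.Prime ∧ p ≡ 1 [MOD 6] ∧ p ∉ S ∧ p ≤ 16 ^ (2 * S.card + 1) := by
  obtain ⟨n, hn1, hn2, p, hp, hd, hpS⟩ := core S hS
  refine ⟨p, hp, ?_, hpS, ?_⟩
  · haveI : Fact p.Prime := ⟨hp⟩
    have hp3 : p ≠ 3 := fun h => hpS (h ▸ h3)
    have hp2 : p % 2 = 1 := by
      rcases hp.eq_two_or_odd with h | h
      · exfalso
        rw [h] at hd
        have h1 : (n ^ 2 + n + 1) % 2 = 0 := Nat.mod_eq_zero_of_dvd hd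
        have h2 : (n ^ 2 + n) % 2 = 0 := by
          have h4 : n ^ 2 + n = n * (n + 1) := by ring
          rw [h4]
          exact Nat.even_iff.1 (Nat.even_mul_succ_self n)
        omega
      · exact h
    have hz : (n : ZMod p) ^ 2 + n + 1 = 0 := by
      have h1 := (ZMod.natCast_eq_zero_iff (n ^ 2 + n + 1) p).2 hd
      push_cast at h1
      exact h1
    have hcube : (n : ZMod p) ^ 3 = 1 := by
      linear_combination ((n : ZMod p) - 1) * hz
    have hne1 : (n : ZMod p) ≠ 1 := by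
      intro h1
      rw [h1] at hz
      have h4 : ((3 : ℕ) : ZMod p) = 0 := by
        push_cast
        linear_combination hz
      rw [ZMod.natCast_eq_zero_iff] at h4
      exact hp3 ((Nat.prime_dvd_prime_iff_eq hp Nat.prime_three).1 h4)
    have hne0 : (n : ZMod p) ≠ 0 := by
      intro h1
      rw [h1] at hcube
      simp at hcube
    haveI : Fact (Nat.Prime 3) := ⟨Nat.prime_three⟩
    have hord : orderOf (n : ZMod p) = 3 := orderOf_eq_prime hcube hne1
    have hdvd := ZMod.orderOf_dvd_card_sub_one hne0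
    rw [hord] at hdvd
    have := hp.two_le
    show p % 6 = 1 % 6
    omega
  · have h1 : p ≤ n ^ 2 + n + 1 := Nat.le_of_dvd (by positivity) hd
    have h5 : n ^ 2 + n + 1 ≤ 3 * n ^ 2 := by nlinarith
    have h6 : n ^ 2 ≤ (2 * 16 ^ S.card) ^ 2 := Nat.pow_le_pow_left hn2 2
    have h7 : (16 : ℕ) ^ (2 * S.card + 1) = 4 * (2 * 16 ^ S.card) ^ 2 := by
      rw [pow_succ, pow_mul', ]
      ring
    omega

lemma many (R : ℕ) (S : Finset ℕ) (hS : ∀ p ∈ S, p.Prime) (h3 : 3 ∈ S) :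
    ∃ P : Finset ℕ, P.card = R ∧ ∀ p ∈ P, p.Prime ∧ p ≡ 1 [MOD 6] ∧ p ∉ S ∧
      p ≤ 16 ^ (2 * (S.card + R) + 1) := by
  classical
  induction R with
  | zero => exact ⟨∅, card_empty, fun p hp => absurd hp (notMem_empty p)⟩
  | succ R ih =>
    obtain ⟨P, hP, hPP⟩ := ih
    obtain ⟨q, hq, hq6, hqS, hqb⟩ := newp (S ∪ P) (fun p hp => by
      rcases mem_union.1 hp with h | h
      · exact hS p h
      · exact (hPP p h).1) (mem_union_left _ h3)
    rw [mem_union, not_or] at hqS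
    have hc : (S ∪ P).card ≤ S.card + R := (card_union_le _ _).trans (by rw [hP])
    refine ⟨insert q P, by rw [card_insert_of_notMem hqS.2, hP], fun p hp => ?_⟩
    rcases mem_insert.1 hp with rfl | hp
    · exact ⟨hq, hq6, hqS.1, hqb.trans (Nat.pow_le_pow_right (by norm_num) (by omega))⟩
    · obtain ⟨h1, h2, h4, h5⟩ := hPP p hp
      exact ⟨h1, h2, h4, h5.trans (Nat.pow_le_pow_right (by norm_num) (by omega))⟩

lemma param6 (W R : ℕ) (c0 : ℝ) : ∃ T : ℝ, 0 < T ∧ ∀ s : ℝ, T ≤ s → ∀ t : ℕ,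
    Real.log (t.factorial : ℝ) ≤ c0 * s →
      (W : ℝ) * ((2 * ((t : ℝ) + 1 + R) + 1) * Real.log 16) ≤ s := by
  set E : ℝ := ((W : ℝ) + 1) * 3 with hE
  have hW : (0 : ℝ) ≤ W := Nat.cast_nonneg W
  have hR : (0 : ℝ) ≤ R := Nat.cast_nonneg R
  have hE3 : 3 ≤ E := by
    rw [hE]
    linarith only [hW]
  have hc : 0 ≤ |c0| := abs_nonneg c0
  set D : ℕ := ⌈Real.exp (4 * E * (|c0| + 1))⌉₊ + 2 with hD
  have hD1 : 4 * E * (|c0| + 1) ≤ Real.log D := by
    rw [Real.le_log_iff_exp_le (by rw [hD]; positivity), hD]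
    push_cast
    have := Nat.le_ceil (Real.exp (4 * E * (|c0| + 1)))
    linarith only [this]
  have hD0 : (0 : ℝ) ≤ D := Nat.cast_nonneg D
  refine ⟨2 * (E * (2 * ((D : ℝ) + 1 + R) + 1)) + 1, by positivity, fun s hs t ht => ?_⟩
  have ht0 : (0 : ℝ) ≤ t := Nat.cast_nonneg t
  have h16 : Real.log 16 ≤ 3 := by
    have h1 : Real.log 16 = 4 * Real.log 2 := by
      rw [show (16 : ℝ) = 2 ^ 4 by norm_num, Real.log_pow]
      norm_num
    have h2 := Real.log_two_lt_d9
    rw [h1]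
    linarith only [h2]
  have h16' : 0 ≤ Real.log 16 := Real.log_nonneg (by norm_num)
  have hb : (W : ℝ) * ((2 * ((t : ℝ) + 1 + R) + 1) * Real.log 16) ≤
      E * (2 * ((t : ℝ) + 1 + R) + 1) := by
    have h1 : (0 : ℝ) ≤ 2 * ((t : ℝ) + 1 + R) + 1 := by positivity
    have h2 : (W : ℝ) * ((2 * ((t : ℝ) + 1 + R) + 1) * Real.log 16) ≤
        (W + 1) * ((2 * ((t : ℝ) + 1 + R) + 1) * 3) :=
      mul_le_mul (by linarith only) (mul_le_mul_of_nonneg_left h16 h1) (mul_nonneg h1 h16')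
        (by positivity)
    refine h2.trans (le_of_eq ?_)
    rw [hE]
    ring
  refine hb.trans ?_
  have hEp : 0 < E := by linarith only [hE3]
  rcases le_or_gt t D with h | h
  · have h1 : (t : ℝ) ≤ D := by exact_mod_cast h
    have h2 : E * (2 * ((t : ℝ) + 1 + R) + 1) ≤ E * (2 * ((D : ℝ) + 1 + R) + 1) :=
      mul_le_mul_of_nonneg_left (by linarith only [h1]) hEp.le
    have h3 : 0 ≤ E * (2 * ((D : ℝ) + 1 + R) + 1) := by positivity
    linarith only [h2, h3, hs]
  · have h1 : ((D : ℕ) : ℝ) ^ (t - D) ≤ (t.factorial : ℝ) := by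
      have h2 := Nat.factorial_mul_pow_sub_le_factorial h.le
      have h3 : D ^ (t - D) ≤ t.factorial :=
        (Nat.le_mul_of_pos_left _ (Nat.factorial_pos D)).trans h2
      exact_mod_cast h3
    have hDp : (0 : ℝ) < D := by
      rw [hD]
      positivity
    have h2 := Real.log_le_log (pow_pos hDp _) h1
    rw [Real.log_pow, Nat.cast_sub h.le] at h2
    have h3 : (t : ℝ) - D > 0 := by
      have : (D : ℝ) < t := by exact_mod_cast h
      linarith only [this]
    have hs0 : 0 < s := by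
      have h4 : 0 ≤ E * (2 * ((D : ℝ) + 1 + R) + 1) := by positivity
      linarith only [h4, hs]
    have h4 : ((t : ℝ) - D) * (4 * E * (|c0| + 1)) ≤ (|c0| + 1) * s := by
      have h5 : ((t : ℝ) - D) * (4 * E * (|c0| + 1)) ≤ ((t : ℝ) - D) * Real.log D :=
        mul_le_mul_of_nonneg_left hD1 h3.le
      have h6 : c0 * s ≤ (|c0| + 1) * s :=
        mul_le_mul_of_nonneg_right (by linarith only [le_abs_self c0]) hs0.le
      linarith only [h5, h6, h2, ht]
    have h5 : ((t : ℝ) - D) * (4 * E) ≤ s := by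
      have h6 : 0 < |c0| + 1 := by linarith only [hc]
      have h7 : (((t : ℝ) - D) * (4 * E)) * (|c0| + 1) ≤ s * (|c0| + 1) := by
        linarith only [h4]
      exact le_of_mul_le_mul_right h7 h6
    have h6 : E * (2 * ((t : ℝ) + 1 + R) + 1) =
        E * (2 * ((D : ℝ) + 1 + R) + 1) + (((t : ℝ) - D) * (4 * E)) / 2 := by ring
    rw [h6]
    linarith only [h5, hs]

/-- **small primes of the class `1` modulo `6` that do not divide a number** -/
theorem primes6 (W R : ℕ) (c0 : ℝ) : ∃ T : ℝ, 0 < T ∧ ∀ s : ℝ, T ≤ s → ∀ h : ℕ, 1 ≤ h →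
    Real.log h ≤ c0 * s → ∃ P : Finset ℕ, P.card = R ∧
      (∀ p ∈ P, p.Prime ∧ p ≡ 1 [MOD 6] ∧ ¬ p ∣ h) ∧ ∃ Bd : ℕ, (∀ p ∈ P, p ≤ Bd) ∧ 1 ≤ Bd ∧
        (W : ℝ) * Real.log Bd ≤ s := by
  classical
  obtain ⟨T, hT, hTs⟩ := param6 W R c0
  refine ⟨T, hT, fun s hs h hh hlog => ?_⟩
  set t := h.primeFactors.card with ht
  have h1 : t.factorial ≤ h := by
    refine (card_fact_le h.primeFactors fun p hp =>
      (Nat.prime_of_mem_primeFactors hp).one_lt.le).trans ?_
    exact Nat.le_of_dvd hh (Nat.prod_primeFactors_dvd h)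
  have h2 := hTs s hs t (by
    refine le_trans (Real.log_le_log (by exact_mod_cast Nat.factorial_pos t) ?_) hlog
    exact_mod_cast h1)
  obtain ⟨P, hP, hPP⟩ := many R (insert 3 h.primeFactors) (fun p hp => by
    rcases mem_insert.1 hp with rfl | hp
    · exact Nat.prime_three
    · exact Nat.prime_of_mem_primeFactors hp) (mem_insert_self _ _)
  refine ⟨P, hP, fun p hp => ?_, 16 ^ (2 * (t + 1 + R) + 1), fun p hp => ?_,
    Nat.one_le_pow _ _ (by norm_num), ?_⟩
  · obtain ⟨h3, h4, h5, -⟩ := hPP p hp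
    refine ⟨h3, h4, fun hd => h5 (mem_insert_of_mem ?_)⟩
    exact Nat.mem_primeFactors.2 ⟨h3, hd, by omega⟩
  · refine (hPP p hp).2.2.2.trans (Nat.pow_le_pow_right (by norm_num) ?_)
    have h3 : (insert 3 h.primeFactors).card ≤ t + 1 := card_insert_le _ _
    omega
  · push_cast
    rw [Real.log_pow]
    push_cast
    exact h2

end Pool.Agent.Y760.SR
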